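import Pool.Agent.H40.Js6
import Pool.Agent.H40.JzDefs6

set_option autoImplicit false

namespace Pool.Agent.Results.MP_fe2f0d_lc.Model

open Pool.Agent.H40.Bspt Pool.Agent.H40.Jz Pool.Agent.H40.Js Set Filter Classical

def P : ℕ → Type
  | 0 => Unit
  | j + 1 => P j × (Set (Set ((ℕ × P j) × (ℕ × P j))) → ℂˣ)

abbrev X (j : ℕ) : Type := Set ((ℕ × P j) × (ℕ × P j))
abbrev G : Type := (j : ℕ) → Set (X j) → ℂˣ

def π : (j : ℕ) → G → P j
  | 0, _ => ()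
  | j + 1, g => (π j g, g j)

theorem pi_eq (j : ℕ) {x y : G} (h : π j x = π j y) : ∀ i < j, x i = y i := by
  induction j with
  | zero => simp
  | succ j ih =>
    exact fun i e => (Nat.lt_succ_iff_lt_or_eq.1 e).elim (ih (congrArg Prod.fst h) i)
      fun e => e ▸ congrArg Prod.snd h

def H (j : ℕ) : Subgroup G where
  carrier := {g | ∀ i < j, g i = 1}
  one_mem' _ _ := rfl
  mul_mem' a b i e := by rw [Pi.mul_apply, a i e, b i e, one_mul]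
  inv_mem' a i e := by rw [Pi.inv_apply, a i e, inv_one]

def sd : Setoid (ℕ × G) where
  r p q := p.1 = q.1 ∧ ∀ i < p.1, p.2 i = q.2 i
  iseqv := ⟨fun _ => ⟨rfl, fun _ _ => rfl⟩, fun a => ⟨a.1.symm, fun i e => (a.2 i (a.1 ▸ e)).symm⟩,
    fun a b => ⟨a.1.trans b.1, fun i e => (a.2 i e).trans (b.2 i (a.1 ▸ e))⟩⟩

def A : Type := Quotient sd

def nd (j : ℕ) (x : G) : A := Quotient.mk sd (j, x)

theorem nd_eq {j k : ℕ} {x y : G} : nd j x = nd k y ↔ j = k ∧ ∀ i < j, x i = y i := Quotient.eq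

theorem nd_ex (a : A) : ∃ j x, a = nd j x := Quotient.inductionOn a fun p => ⟨p.1, p.2, rfl⟩

instance : MulAction G A where
  smul g := Quotient.map (fun p => (p.1, g * p.2)) fun _ _ a =>
    ⟨a.1, fun i e => congrArg (g i * ·) (a.2 i e)⟩
  one_smul a := Quotient.inductionOn a fun p => congrArg (nd p.1) (one_mul p.2)
  mul_smul g h a := Quotient.inductionOn a fun p => congrArg (nd p.1) (mul_assoc g h p.2)

theorem sm_nd (g : G) (j : ℕ) (x : G) : g • nd j x = nd j (g * x) := rfl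

theorem ev0 {p : G → Prop} : (∀ᶠ g in ⨅ j, 𝓟 (H j : Set G), p g) ↔ ∃ j, ∀ g ∈ H j, p g :=
  mem_iInf_of_directed (f := fun j => 𝓟 (H j : Set G)) (fun i j => ⟨max i j, principal_mono.2 fun _ a k e => a k (lt_max_of_lt_left e),
    principal_mono.2 fun _ a k e => a k (lt_max_of_lt_right e)⟩) _

instance : NF G where
  F := ⨅ j, 𝓟 (H j : Set G)
  conj h := tendsto_id.congr fun g => by simp [mul_comm h⁻¹]
  inv := fun _ a => ev0.2 ((ev0.1 a).imp fun j b g c => b _ ((H j).inv_mem c))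

theorem ev {p : G → Prop} : (∀ᶠ g in NF.F, p g) ↔ ∃ j, ∀ g ∈ H j, p g := ev0

theorem h_nd {j k : ℕ} {g : G} (h : g ∈ H j) (e : k ≤ j) (x : G) : g • nd k x = nd k x :=
  nd_eq.2 ⟨rfl, fun i a => by rw [Pi.mul_apply, h i (a.trans_le e), one_mul]⟩

instance : Fx G A := ⟨fun a => by
  obtain ⟨j, x, rfl⟩ := nd_ex a
  exact ev.2 ⟨j, fun g h => h_nd h le_rfl x⟩⟩

abbrev Pt : Type := PS G (PS G A)

def IsP (Q : Pt) : Prop := (∀ B ∈ Q.1, B.1.Nonempty) ∧ (∀ x, ∃ B ∈ Q.1, x ∈ B.1) ∧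
  ∀ B ∈ Q.1, ∀ C ∈ Q.1, ∀ x ∈ B.1, x ∈ C.1 → B = C

def R (Q : Pt) (x y : A) : Prop := ∃ B ∈ Q.1, x ∈ B.1 ∧ y ∈ B.1

theorem isP_sm (g : G) {Q : Pt} (h : IsP Q) : IsP (g • Q) :=
  ⟨fun B a => (h.1 _ a).elim fun x b => ⟨g • x, by simpa using smul_mem (g := g).2 b⟩,
    fun x => (h.2.1 (g⁻¹ • x)).elim fun B a => ⟨g • B, smul_mem.2 a.1, a.2⟩,
    fun B a C b x c d => MulAction.injective g⁻¹ (h.2.2 _ a _ b _ (smul_mem.2 c) (smul_mem.2 d))⟩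

theorem fin_sm (g : G) {Q : Pt} (h : Q.1.Finite) : (g • Q).1.Finite :=
  h.preimage (MulAction.injective _).injOn

theorem r_ext {Q Q' : Pt} (h : IsP Q) (h' : IsP Q') (e : ∀ x y, R Q x y ↔ R Q' x y) : Q = Q' := by
  have k : ∀ {Q Q' : Pt}, IsP Q → IsP Q' → (∀ x y, R Q x y ↔ R Q' x y) → Q.1 ⊆ Q'.1 :=
    fun {Q Q'} h h' e B a => by
      obtain ⟨x, b⟩ := h.1 B a
      obtain ⟨C, c, d⟩ := h'.2.1 x
      convert c
      refine Subtype.ext (Set.ext fun y => ⟨fun f => ?_, fun f => ?_⟩)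
      · obtain ⟨D, i, j, k⟩ := (e x y).1 ⟨B, a, b, f⟩
        exact h'.2.2 D i C c x j d ▸ k
      · obtain ⟨D, i, j, k⟩ := (e x y).2 ⟨C, c, d, f⟩
        exact h.2.2 D i B a x j b ▸ k
  exact Subtype.ext ((k h h' e).antisymm (k h' h fun x y => (e x y).symm))

theorem root {j : ℕ} (g : H j) {n : ℕ} (hn : 0 < n) : ∃ r : H j, r ^ n = g := by
  have : ∀ z : ℂˣ, ∃ w : ℂˣ, w ^ n = z ∧ (z = 1 → w = 1) := fun z => by
    by_cases a : z = 1
    · exact ⟨1, by simp [a], fun _ => rfl⟩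
    · obtain ⟨w, b⟩ := IsAlgClosed.exists_pow_nat_eq (z : ℂ) hn
      exact ⟨Units.mk0 w fun c => z.ne_zero (by rw [← b, c, zero_pow hn.ne']), Units.ext (by simpa),
        fun c => absurd c a⟩
  choose f a b using this
  exact ⟨⟨fun i s => f (g.1 i s), fun i e => funext fun s => b _ (congrFun (g.2 i e) s)⟩,
    Subtype.ext (funext fun i => funext fun s => a _)⟩

theorem blk {j : ℕ} {Q : Pt} (f : Q.1.Finite) (h : ∀ g ∈ H j, g • Q = Q) {g : G} (a : g ∈ H j) :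
    ∀ B ∈ Q.1, g • B = B := fun B b => by
  let S : SubMulAction (H j) (PS G A) := ⟨Q.1, fun r C c => h r.1 r.2 ▸ smul_mem.2 c⟩
  haveI : Finite S := f
  obtain ⟨r, e⟩ := root ⟨g, a⟩ (Nat.card_pos (α := Equiv.Perm S))
  have := congrArg (fun r => (MulAction.toPermHom (H j) S r ⟨B, b⟩).1) e
  simp only [map_pow, pow_card_eq_one'] at this
  exact this.symm

def cd (j : ℕ) (Q : Pt) : X j :=
  {p | ∃ x y, π j x = p.1.2 ∧ π j y = p.2.2 ∧ R Q (nd p.1.1 x) (nd p.2.1 y)}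

theorem cd_inj {j : ℕ} {Q Q' : Pt} (h : IsP Q ∧ Q.1.Finite ∧ ∀ g ∈ H j, g • Q = Q)
    (h' : IsP Q' ∧ Q'.1.Finite ∧ ∀ g ∈ H j, g • Q' = Q') (e : cd j Q = cd j Q') : Q = Q' := by
  have k : ∀ {Q : Pt}, Q.1.Finite ∧ (∀ g ∈ H j, g • Q = Q) → ∀ m x n y,
      R Q (nd m x) (nd n y) ↔ ((m, π j x), (n, π j y)) ∈ cd j Q := fun {Q} h m x n y =>
    ⟨fun a => ⟨x, y, rfl, rfl, a⟩, fun ⟨x', y', a, b, B, c, d, e⟩ => by
      have k : ∀ m x x', π j x' = π j x → nd m x' ∈ B.1 → nd m x ∈ B.1 := fun m x x' a d => by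
        have := smul_mem (g := x * x'⁻¹).2 d
        rwa [blk h.1 h.2 (fun i e => by simp [pi_eq j a i e]) B c, sm_nd, inv_mul_cancel_right] at this
      exact ⟨B, c, k _ _ _ a d, k _ _ _ b e⟩⟩
  refine r_ext h.1 h'.1 fun a b => ?_
  obtain ⟨m, x, rfl⟩ := nd_ex a
  obtain ⟨n, y, rfl⟩ := nd_ex b
  rw [k h.2, k h'.2, e]

noncomputable def wv (j : ℕ) (s : Set (X j)) : G := Pi.mulSingle j (Pi.mulSingle s (-1))

theorem wv_mem (j : ℕ) (s : Set (X j)) : wv j s ∈ H j := fun _ e => Pi.mulSingle_eq_of_ne e.ne _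

theorem wv_sq (j : ℕ) (s : Set (X j)) : wv j s * wv j s = 1 := by
  simp [wv, ← Pi.mulSingle_mul]

theorem ne1 : (-1 : ℂˣ) ≠ 1 := fun a => by
  have := congrArg Units.val a
  norm_num at this

theorem wv_inj {j : ℕ} {s t : Set (X j)} (e : wv j s • nd (j + 1) 1 = wv j t • nd (j + 1) 1) :
    s = t := by_contra fun a => by
  have := congrFun ((nd_eq.1 e).2 j j.lt_succ_self) s
  simp [wv, Pi.mulSingle_eq_of_ne a, ne1] at this

theorem wv_ne {j : ℕ} {s : Set (X j)} : wv j s • nd (j + 1) 1 ≠ nd (j + 1) 1 := fun e => by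
  have := congrFun ((nd_eq.1 e).2 j j.lt_succ_self) s
  simp [wv, ne1] at this

def pa (τ : A → A) (a : A) : PS G A := ⟨{a, τ a}, sym_fin (A := A) (t := .a) (toFinite ({a, τ a} : Set A))⟩

theorem pa_sm {τ τ' : A → A} {g : G} (h : ∀ a, τ' (g • a) = g • τ a) (a : A) :
    g • pa τ a = pa τ' (g • a) := Subtype.ext (Set.ext fun x => by
  simp [H40.Js.mem_smul, pa, h, inv_smul_eq_iff])

def orb (τ : A → A) (h : ∀ᶠ g in NF.F (Γ := G), ∀ a, τ (g • a) = g • τ a) : Pt :=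
  ⟨range (pa τ), sym_of (h.mono fun g e _ ⟨a, b⟩ => ⟨_, b ▸ (pa_sm e a).symm⟩)⟩

theorem orb_sm {τ τ' : A → A} {h h'} {g : G} (e : ∀ a, τ' (g • a) = g • τ a) :
    g • orb τ h = orb τ' h' := Subtype.ext (Set.ext fun B => ⟨fun ⟨a, b⟩ => ⟨g • a, by
  rw [← pa_sm e, b, smul_inv_smul]⟩, fun ⟨a, b⟩ => ⟨g⁻¹ • a, by
  rw [← b, eq_inv_smul_iff, pa_sm e, smul_inv_smul]⟩⟩)

theorem pa_eq {τ : A → A} (i : Function.Involutive τ) {a x : A} (h : x ∈ (pa τ a).1) :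
    pa τ a = pa τ x := by
  rcases h with rfl | rfl
  exacts [rfl, Subtype.ext (by simp [pa, i a, pair_comm])]

theorem orb_p {τ : A → A} {h} (i : Function.Involutive τ) :
    IsP (orb τ h) ∧ ∀ B ∈ (orb τ h).1, B.1.Finite :=
  ⟨⟨fun _ ⟨a, b⟩ => ⟨a, b ▸ Or.inl rfl⟩, fun x => ⟨_, ⟨x, rfl⟩, Or.inl rfl⟩, by
    rintro _ ⟨a, rfl⟩ _ ⟨b, rfl⟩ x c d
    rw [pa_eq i c, pa_eq i d]⟩, fun _ ⟨a, b⟩ => b ▸ toFinite ({a, τ a} : Set A)⟩

theorem orb_inj {τ τ' : A → A} {h h'} (i : Function.Involutive τ') (e : orb τ h = orb τ' h') (a : A) :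
    τ a = τ' a := by
  obtain ⟨b, c⟩ : pa τ a ∈ (orb τ' h').1 := e ▸ ⟨a, rfl⟩
  rw [pa_eq i (x := a) (c ▸ Or.inl rfl)] at c
  have d : ({a, τ' a} : Set A) = {a, τ a} := congrArg Subtype.val c
  rcases (d ▸ Or.inr rfl : τ a ∈ ({a, τ' a} : Set A)) with f | f
  exacts [(d ▸ Or.inr rfl : τ' a ∈ ({a, τ a} : Set A)).elim (f.trans ·.symm) Eq.symm, f]

noncomputable def lv (Q : Pt) : ℕ := Nat.find (ev.1 (ps_fix Q))

theorem lv_sp (Q : Pt) : ∀ g ∈ H (lv Q), g • Q = Q := Nat.find_spec (ev.1 (ps_fix Q))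

theorem cm {Y : Type} [MulAction G Y] (g k : G) (y : Y) : g • k • y = k • g • y := by
  rw [← mul_smul, mul_comm, mul_smul]

theorem lv_sm (g : G) (Q : Pt) : lv (g • Q) = lv Q := by
  have k : ∀ (g : G) Q, lv (g • Q) ≤ lv Q := fun g Q => Nat.find_min' _ fun k a => by
    rw [cm, lv_sp Q k a]
  exact (k g Q).antisymm (by simpa using k g⁻¹ (g • Q))

def κ (j : ℕ) (Q : Pt) (a : A) : Set (X j) := {c | ∃ m x, nd m x = a ∧ c = cd j (x⁻¹ • Q)}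

theorem κ_sm (j : ℕ) (g : G) (Q : Pt) (a : A) : κ j (g • Q) (g • a) = κ j Q a := by
  have k : ∀ (g : G) Q a, κ j Q a ⊆ κ j (g • Q) (g • a) := fun g Q a c ⟨m, x, d, e⟩ =>
    ⟨m, g * x, d ▸ rfl, by rw [e, mul_inv_rev, mul_smul, inv_smul_smul]⟩
  exact Subset.antisymm (by simpa using k g⁻¹ (g • Q) (g • a)) (k g Q a)

noncomputable def τ (j : ℕ) (Q : Pt) (a : A) : A := wv j (κ j Q a) • a

theorem τ_sm (j : ℕ) (g : G) (Q : Pt) (a : A) : τ j (g • Q) (g • a) = g • τ j Q a := by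
  rw [τ, κ_sm, cm, τ]

theorem τ_inv (Q : Pt) : Function.Involutive (τ (lv Q) Q) := fun a => by
  have := κ_sm (lv Q) (wv _ (κ (lv Q) Q a)) Q a
  rw [lv_sp Q _ (wv_mem _ _)] at this
  rw [τ, τ, this, ← mul_smul, wv_sq, one_smul]

noncomputable def Φ (Q : Pt) : Pt := orb (τ (lv Q) Q) ((ps_fix Q).mono fun g e a => by
  rw [← τ_sm, e])

theorem Φ_sm (g : G) (Q : Pt) : Φ (g • Q) = g • Φ Q :=
  (orb_sm fun a => by rw [lv_sm, τ_sm]).symm

theorem Φ_inj {Q Q' : Pt} (h : IsP Q ∧ Q.1.Finite) (h' : IsP Q' ∧ Q'.1.Finite) (e : Φ Q = Φ Q') :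
    Q = Q' := by
  have a := orb_inj (τ_inv Q') e
  have b : lv Q = lv Q' := le_antisymm
    (not_lt.1 fun b => wv_ne ((a _).symm.trans (h_nd (wv_mem _ _) b 1)))
    (not_lt.1 fun b => wv_ne ((a _).trans (h_nd (wv_mem _ _) b 1)))
  have c := lv_sp Q'
  rw [← b] at a c
  obtain ⟨m, x, d, f⟩ : cd _ Q ∈ κ (lv Q) Q' (nd (lv Q + 1) 1) :=
    wv_inj (a _) ▸ ⟨_, 1, rfl, by simp⟩
  obtain ⟨rfl, d⟩ := nd_eq.1 d
  rw [c _ ((H _).inv_mem fun i k => d i (k.trans (Nat.lt_succ_self _)))] at f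
  exact cd_inj ⟨h.1, h.2, lv_sp Q⟩ ⟨h'.1, h'.2, c⟩ f

theorem result : ∃ (M : Type) (E : M → M → Prop), IsZF E ∧ ∃ A, ¬ IsFin E A ∧
    (∃ φ : {P // PartFin E A P} → {P // FinPart E A P},
      Intl E (fun P => (φ P).1) ∧ Function.Injective φ) ∧
    ¬ ∃ φ : {P // PartFin E A P} → {P // FinPart E A P},
      Intl E (fun P => (φ P).1) ∧ Function.Bijective φ := by
  obtain ⟨J⟩ := ex_js (Λ := G) (A := A) Fx.fx
  have k0 : ∀ Q : Pt, IsP Q ↔ (∀ B, J.E B (J.fA Q) → ∃ x, J.E x B) ∧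
      (∀ x, J.E x (J.sA unA) → ∃ B, J.E B (J.fA Q) ∧ J.E x B) ∧ ∀ B C x, J.E B (J.fA Q) →
        J.E C (J.fA Q) → J.E x B → J.E x C → B = C := fun Q => by
    refine and_congr ?_ (and_congr ?_ ⟨fun a B C x b c d e => ?_, fun a B b C c x d e =>
      J.sA_inj (a _ _ _ (J.memS.2 b) (J.memS.2 c) (J.memA.2 d) (J.memA.2 e))⟩)
    · exact (J.allS.trans (forall₂_congr fun B _ => ⟨fun ⟨_, a⟩ => (J.elA a).imp fun _ => And.left,
        fun ⟨x, a⟩ => ⟨_, J.memA.2 a⟩⟩)).symm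
    · exact (J.allA.trans (forall_congr' fun x => ⟨fun a => (J.exS.1 (a (mem_unA x))).imp fun B b =>
        ⟨b.1, J.memA.1 b.2⟩, fun ⟨B, a, b⟩ _ => ⟨_, J.memS.2 a, J.memA.2 b⟩⟩)).symm
    · obtain ⟨B, b', rfl⟩ := J.elS b
      obtain ⟨C, c', rfl⟩ := J.elS c
      obtain ⟨x, d', rfl⟩ := J.elA d
      rw [a B b' C c' x d' (J.memA.1 e)]
  have k1 : ∀ {z}, (∀ B, J.E B z → Sub J.E B (J.sA unA)) → ∃ Q : Pt, z = J.fA Q := fun a =>
    J.sub (.w .a) _ fun B b => (J.subA (a B b)).imp fun _ => And.right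
  have k2 : ∀ (Q : Pt) B, J.E B (J.fA Q) → Sub J.E B (J.sA unA) := fun Q => J.allS.2 fun _ _ =>
    J.subA_iff.2 (subset_univ _)
  have p1 : ∀ Q : Pt, PartFin J.E (J.sA unA) (J.fA Q) ↔ IsP Q ∧ Q.1.Finite := fun Q =>
    ⟨fun a => ⟨(k0 Q).2 ⟨fun B b => (a.2.1 B b).2, a.2.2⟩, J.finS.1 a.1⟩, fun a => ⟨J.finS.2 a.2,
      fun B b => ⟨k2 Q B b, ((k0 Q).1 a.1).1 B b⟩, ((k0 Q).1 a.1).2⟩⟩
  have p2 : ∀ Q : Pt, (IsP Q ∧ ∀ B ∈ Q.1, B.1.Finite) → FinPart J.E (J.sA unA) (J.fA Q) := fun Q a =>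
    ⟨fun B b => ⟨k2 Q B b, J.allS.2 (fun B c => J.finA.2 (a.2 B c)) B b, ((k0 Q).1 a.1).1 B b⟩,
      ((k0 Q).1 a.1).2⟩
  choose q hq using fun z : {P // PartFin J.E (J.sA unA) P} => k1 fun B b => (z.2.2.1 B b).1
  have q1 := fun z => (p1 (q z)).1 (hq z ▸ z.2)
  refine ⟨J.M, J.E, J.zf, J.sA unA, fun a => infinite_range_of_injective (f := (nd · 1))
    (fun _ _ e => (nd_eq.1 e).1) ((J.finA.1 a).subset (subset_univ _)), ⟨fun z => ⟨_, p2 (Φ (q z))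
      (orb_p (τ_inv _))⟩, J.intl_of (s := .w (.w .a)) (t := .w (.w .a)) univ Φ (Eventually.of_forall
        fun g Q _ => ⟨trivial, Φ_sm g Q⟩) fun z => ⟨q z, trivial, hq z, rfl⟩, fun z w e => Subtype.ext
          (by rw [hq z, hq w, Φ_inj (q1 z) (q1 w) (J.inj (.w (.w .a)) (congrArg Subtype.val e))])⟩, ?_⟩
  rintro ⟨φ, a, b, c⟩
  obtain ⟨j, d⟩ := ev.1 (J.intl_sym (s := .w (.w .a)) (t := .w (.w .a)) a)
  have i : ∀ s, Function.Involutive (wv j s • · : A → A) := fun s x => by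
    simp only [← mul_smul, wv_sq, one_smul]
  let O : Set (X j) → Pt := fun s => orb (wv j s • ·) (Eventually.of_forall fun g a => cm _ _ _)
  choose z e using fun s => c ⟨_, p2 (O s) (orb_p (i s))⟩
  refine Function.cantor_injective (fun s => cd j (q (z s))) fun s t f => ?_
  have k : ∀ s, ∀ g ∈ H j, g • q (z s) = q (z s) := fun s g l => by
    have o := d g l (z s) ⟨_, (p1 _).2 ⟨isP_sm g (q1 (z s)).1, fin_sm g (q1 (z s)).2⟩⟩ _ (O s) (hq _) rfl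
      (congrArg Subtype.val (e s))
    have r : g • O s = O s := orb_sm fun a => cm _ _ _
    exact J.inj (.w (.w .a)) ((congrArg Subtype.val (b (Subtype.ext ((o.trans (congrArg J.fA r)).trans
      (congrArg Subtype.val (e s)).symm)))).trans (hq _))
  have l := cd_inj ⟨(q1 _).1, (q1 _).2, k s⟩ ⟨(q1 _).1, (q1 _).2, k t⟩ f
  have o : z s = z t := Subtype.ext (by rw [hq, hq, l])
  have r : O s = O t := J.inj (.w (.w .a)) ((congrArg Subtype.val (e s)).symm.trans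
    ((congrArg (fun w => (φ w).1) o).trans (congrArg Subtype.val (e t))))
  exact wv_inj (orb_inj (i t) r _)

end Pool.Agent.Results.MP_fe2f0d_lc.Model
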